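import Pool.Agent.W528.Ord.AllEll

/-! The total excess at a vertex, and the places which are ordinary for all sums of the pieces at once. -/

set_option autoImplicit false
set_option linter.all false

namespace Pool.Agent.V1143.Ord

open NumberField IsDedekindDomain Polynomial Filter Topology
open Pool.Agent.W401.Cheb Pool.Agent.W528.Ord
open Pool.Agent.W528.Ord.MultSystem (mv IsDeg1 IsOver norm_mem)

section under

variable {K₀ K : Type} [Field K₀] [NumberField K₀] [Field K] [NumberField K] [Algebra K₀ K]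

/-- counting places of degree one above and below, with the relative degree -/
theorem dens_under (P : HeightOneSpectrum (𝓞 K) → Prop) (P₀ : HeightOneSpectrum (𝓞 K₀) → Prop)
    (hP : ∀ v, P v → (Ideal.absNorm v.asIdeal).Prime)
    (hPP : ∀ v v₀, P v → v.asIdeal.comap (algebraMap (𝓞 K₀) (𝓞 K)) = v₀.asIdeal → P₀ v₀) (N : ℕ) :
    dens P N ≤ (Module.finrank K₀ K : ℝ) * dens P₀ N := by
  classical
  unfold dens
  rw [mul_div_assoc']
  apply div_le_div_of_nonneg_right _ (Nat.cast_nonneg _)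
  have hf : {v : HeightOneSpectrum (𝓞 K) | Ideal.absNorm v.asIdeal ≤ N ∧ P v}.Finite :=
    (Pool.Agent.W352.ChAbs.finite_le (K := K) N).subset (fun v hv => hv.1)
  have hf0 : {v : HeightOneSpectrum (𝓞 K₀) | Ideal.absNorm v.asIdeal ≤ N ∧ P₀ v}.Finite :=
    (Pool.Agent.W352.ChAbs.finite_le (K := K₀) N).subset (fun v hv => hv.1)
  obtain ⟨f, hf1⟩ : ∃ f : HeightOneSpectrum (𝓞 K) → HeightOneSpectrum (𝓞 K₀), ∀ v, P v →
      v.asIdeal.comap (algebraMap (𝓞 K₀) (𝓞 K)) = (f v).asIdeal ∧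
      Ideal.absNorm (f v).asIdeal = Ideal.absNorm v.asIdeal := by
    by_cases hne : Nonempty (HeightOneSpectrum (𝓞 K₀))
    · obtain ⟨w⟩ := hne
      refine ⟨fun v => if h : P v then (exists_under (K₀ := K₀) v (hP v h)).choose else w, fun v hv => ?_⟩
      simp only [dif_pos hv]
      exact (exists_under (K₀ := K₀) v (hP v hv)).choose_spec
    · obtain ⟨v, hv, -⟩ := exists_good (K := K₀) ∅
      exact absurd ⟨v⟩ hne
  have key : hf.toFinset.card ≤ Module.finrank K₀ K * hf0.toFinset.card := by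
    have h1 : hf.toFinset.card ≤ Module.finrank K₀ K * (hf.toFinset.image f).card := by
      apply Finset.card_le_mul_card_image
      intro b hb
      have hbb : b.asIdeal ≠ ⊥ := b.ne_bot
      haveI : b.asIdeal.IsMaximal := b.isMaximal
      haveI : NoZeroSMulDivisors (𝓞 K₀) (𝓞 K) := ⟨fun {c x} h => by
        rw [Algebra.smul_def, mul_eq_zero] at h
        rcases h with h | h
        · left
          exact (FaithfulSMul.algebraMap_injective (𝓞 K₀) (𝓞 K)) (by rw [h, map_zero])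
        · exact Or.inr h⟩
      have h2 := Ideal.card_primesOverFinset_le_finrank (𝓞 K) K₀ K hbb
      refine le_trans ?_ h2
      have hinj : Function.Injective (fun w : HeightOneSpectrum (𝓞 K) => w.asIdeal) :=
        fun a b h => HeightOneSpectrum.ext h
      rw [← Finset.card_image_of_injective _ hinj]
      apply Finset.card_le_card
      intro I hI
      obtain ⟨w, hw, rfl⟩ := Finset.mem_image.mp hI
      rw [Finset.mem_filter, Set.Finite.mem_toFinset] at hw
      rw [IsDedekindDomain.mem_primesOverFinset_iff hbb]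
      refine ⟨w.isPrime, ⟨?_⟩⟩
      rw [← hw.2]
      exact (hf1 w hw.1.2).1.symm
    refine h1.trans (Nat.mul_le_mul_left _ (Finset.card_le_card ?_))
    intro b hb
    obtain ⟨v, hv, rfl⟩ := Finset.mem_image.mp hb
    rw [Set.Finite.mem_toFinset] at hv ⊢
    exact ⟨by rw [(hf1 v hv.2).2]; exact hv.1, hPP v _ hv.2 (hf1 v hv.2).1⟩
  have e1 : Nat.card {v : HeightOneSpectrum (𝓞 K) // Ideal.absNorm v.asIdeal ≤ N ∧ P v} =
      hf.toFinset.card := Set.ncard_eq_toFinset_card _ hf
  have e2 : Nat.card {v : HeightOneSpectrum (𝓞 K₀) // Ideal.absNorm v.asIdeal ≤ N ∧ P₀ v} =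
      hf0.toFinset.card := Set.ncard_eq_toFinset_card _ hf0
  rw [e1, e2]
  exact_mod_cast key

/-- lower densities above and below -/
theorem lower_under (P : HeightOneSpectrum (𝓞 K) → Prop) (P₀ : HeightOneSpectrum (𝓞 K₀) → Prop)
    (hP : ∀ v, P v → (Ideal.absNorm v.asIdeal).Prime)
    (hPP : ∀ v v₀, P v → v.asIdeal.comap (algebraMap (𝓞 K₀) (𝓞 K)) = v₀.asIdeal → P₀ v₀)
    (δ : ℝ) (h : ∀ ε : ℝ, 0 < ε → ∀ᶠ N : ℕ in atTop, δ - ε ≤ dens P N) :
    δ / (Module.finrank K₀ K : ℝ) ≤ lowerDensity P₀ := by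
  haveI : Algebra.IsIntegral K₀ K := inferInstance
  haveI : Module.Finite K₀ K := Module.Finite.of_restrictScalars_finite ℚ K₀ K
  have hd : (0 : ℝ) < (Module.finrank K₀ K : ℝ) := by exact_mod_cast Module.finrank_pos
  apply lowerDensity_ge
  intro ε hε
  filter_upwards [h (ε * Module.finrank K₀ K) (by positivity)] with N hN
  have h1 := dens_under P P₀ hP hPP N
  have h2 : δ - ε * Module.finrank K₀ K ≤ (Module.finrank K₀ K : ℝ) * dens P₀ N := hN.trans h1
  have h3 : δ / (Module.finrank K₀ K : ℝ) - ε = (δ - ε * Module.finrank K₀ K) / (Module.finrank K₀ K : ℝ) := by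
    field_simp
  rw [h3, div_le_iff₀ hd, mul_comm (dens P₀ N)]
  exact h2

end under

section

variable {K : Type} [Field K] [NumberField K] {ℓ : ℕ} [Fact ℓ.Prime]

/-- The total excess at `v` is smaller than half the defect: if `Q` is a maximal ideal above `v` and, for
some `0 < k < n`, the coefficient of index `n - k` of the `σ`-part of the Frobenius polynomial is divisible
at `Q` by `p ^ (hp σ k + e σ)` for all `σ`, then `2 * Σ e σ` is smaller than
`defect k = Σ (w k - 2 hp σ k)`. -/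
def SmallExcess (A : MotSystem K ℓ) (v : HeightOneSpectrum (𝓞 K)) : Prop :=
  ∀ Q : Ideal (𝓞 (AlgebraicClosure K)), IsOver Q v → ∀ k : ℕ, 0 < k → k < A.n →
    ∀ e : (A.E →+* AlgebraicClosure K) → ℕ,
      (∀ σ, LocDvd Q (Ideal.absNorm v.asIdeal) (A.hp σ k + e σ) (A.cof v (A.n - k) σ)) →
      2 * ∑ σ, (e σ : ℤ) < A.defect k

theorem small_dens {A : MotSystem K ℓ} {χ : GK K →* (PadicAlgCl ℓ)ˣ} {S : Finset ℕ}
    (hA : A.IsMotive χ S) (hver : ∃ (σ : A.E →+* AlgebraicClosure K) (k : ℕ), A.Vertex σ k) :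
    Tendsto (dens fun v => IsDeg1 S v ∧ ¬ SmallExcess A v) atTop (𝓝 0) := by
  classical
  have hns := hA.nonScalar hver
  have hk : ∀ k ∈ (Finset.range A.n).filter (0 < ·), Tendsto (dens fun v : HeightOneSpectrum (𝓞 K) =>
      ((Ideal.absNorm v.asIdeal).Prime ∧ Ideal.absNorm v.asIdeal ∉ S) ∧
      ∃ (Q : Ideal (𝓞 (AlgebraicClosure K))) (e : (A.E →+* AlgebraicClosure K) → ℕ), IsOver Q v ∧
        (∀ σ, LocDvd Q (Ideal.absNorm v.asIdeal) (A.hp σ k + e σ) (A.cof v (A.n - k) σ)) ∧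
        A.defect k ≤ 2 * ∑ σ, (e σ : ℤ)) atTop (𝓝 0) := by
    intro k hk
    rw [Finset.mem_filter, Finset.mem_range] at hk
    refine engine A.ρ χ hA.isCont.1 hA.isCont.2 hA.connected k A.w hk.2 hk.1 A.P
      (fun v => (Ideal.absNorm v.asIdeal).Prime ∧ Ideal.absNorm v.asIdeal ∉ S)
      (fun v hv => hv.1) (fun v hv => (hA.isMonic v hv).1)
      (fun v hv => (hA.isMonic v hv).2)
      (fun v hv τ α h => hA.isWeil v hv τ α h)
      (fun v hv σ hσ τ => (hA.isCompat v hv σ hσ).2 τ)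
      (fun v hv σ hσ => (hA.isCompat v hv σ hσ).1) ?_ _ ?_
    · obtain ⟨v, hv, τ, hα⟩ := hns
      exact ⟨v, hv, τ, hα⟩
    · rintro v hv ⟨Q, e, hQ, hd, hdef⟩
      haveI := hQ.1.isPrime
      have hp := norm_mem hv.1 hQ.2
      have h2 := LocDvd.prod Finset.univ (fun σ => A.hp σ k + e σ)
        (fun σ => A.cof v (A.n - k) σ) (fun σ _ => hd σ)
      have h3 : ∏ σ : A.E →+* AlgebraicClosure K, A.cof v (A.n - k) σ =
          ((Algebra.norm ℤ ((A.P v).coeff (A.n - k)) : ℤ) : 𝓞 (AlgebraicClosure K)) :=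
        (norm_eq_prod_int (AlgebraicClosure K) _).symm
      rw [h3] at h2
      refine ⟨_, ?_, h2.int hv.1 hp⟩
      unfold MotSystem.defect at hdef
      rw [Finset.sum_sub_distrib, Finset.sum_const, Finset.card_univ, NumberField.Embeddings.card,
        nsmul_eq_mul, ← Finset.mul_sum] at hdef
      rw [Finset.sum_add_distrib]
      zify
      push_cast at hdef ⊢
      linarith
  have hun := dens_biUnion ((Finset.range A.n).filter (0 < ·)) _ hk
  refine squeeze_zero (fun N => dens_nonneg _ _) (fun N => dens_mono ?_ N) hun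
  rintro v ⟨hv, hnot⟩
  unfold SmallExcess at hnot
  push Not at hnot
  obtain ⟨Q, hQ, k, hk0, hkn, e, he, hle⟩ := hnot
  exact ⟨k, by rw [Finset.mem_filter, Finset.mem_range]; exact ⟨hkn, hk0⟩, hv, Q, e, hQ, he, hle⟩

/-- with small excess and an admissible Frobenius element there is no excess at the vertices -/
theorem no_excess {A : MotSystem K ℓ} {χ : GK K →* (PadicAlgCl ℓ)ˣ} {S : Finset ℕ}
    (hA : A.IsMotive χ S) {v : HeightOneSpectrum (𝓞 K)} (hv : IsDeg1 S v)
    {Q : Ideal (𝓞 (AlgebraicClosure K))} (hQ : IsOver Q v) {γ : GK K}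
    (hγ : ∀ x : 𝓞 (AlgebraicClosure K), γ • x - x ^ Ideal.absNorm v.asIdeal ∈ Q)
    (hadm : A.Admissible γ) (hs : SmallExcess A v) (σ₀ : A.E →+* AlgebraicClosure K) (k : ℕ)
    (hk : A.Vertex σ₀ k) :
    ¬ LocDvd Q (Ideal.absNorm v.asIdeal) (A.hp σ₀ k + 1) (A.cof v (A.n - k) σ₀) := by
  classical
  intro hex
  have h1 := hadm σ₀ k hk
  have h2 := hs Q hQ k hk.1 hk.2.1 (fun σ => if σ ∈ A.orb γ σ₀ k then 1 else 0) (fun σ => by
    by_cases hσ : σ ∈ A.orb γ σ₀ k
    · simp only [if_pos hσ]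
      exact MotSystem.excess_orb hA hv hQ hγ σ₀ k hk.2.1.le hex σ hσ
    · simp only [if_neg hσ, add_zero]
      exact (hA.isMazur v hv Q hQ σ).1 _ hk.2.1.le)
  have h4 : ∑ σ, (((if σ ∈ A.orb γ σ₀ k then 1 else 0 : ℕ)) : ℤ) = ((A.orb γ σ₀ k).ncard : ℤ) := by
    rw [← Nat.cast_sum]
    congr 1
    rw [Finset.sum_ite, Finset.sum_const_zero, add_zero, Finset.sum_const, smul_eq_mul, mul_one,
      ← Set.ncard_coe_finset]
    congr 1
    ext σ
    simp
  rw [h4] at h2
  omega

section family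

variable {ι : Type} [Fintype ι] (A : ι → MotSystem K ℓ) (χ : GK K →* (PadicAlgCl ℓ)ˣ)
  (S : Finset ℕ)

/-- the places of degree one outside `S` at which all pieces with a vertex have small excess -/
def GoodPlace (v : HeightOneSpectrum (𝓞 K)) : Prop :=
  IsDeg1 S v ∧ ∀ i, (∃ (σ : (A i).E →+* AlgebraicClosure K) (k : ℕ), (A i).Vertex σ k) →
    SmallExcess (A i) v

variable {A S}

theorem good_newton (hA : ∀ i, (A i).IsMotive χ S) {v : HeightOneSpectrum (𝓞 K)}
    (hv : GoodPlace A S v) {γ : GK K} (hγ : IsFrob v γ) (m : ι → ℕ)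
    (hadm : ∀ i, 0 < m i → (A i).Admissible γ) (G : ℤ[X])
    (hG : G.map (Int.castRingHom (AlgebraicClosure K)) = MotSystem.prodPoly A m v) :
    NewtonSlopes (Ideal.absNorm v.asIdeal) G (MotSystem.slopes A m) := by
  obtain ⟨Q, hQ, hQv, hγ⟩ := hγ
  refine MotSystem.newton_of A m χ S hA hv.1 ⟨hQ, hQv⟩ G hG ?_
  intro i hi σ k hk
  exact no_excess (hA i) hv.1 ⟨hQ, hQv⟩ hγ (hadm i hi) (hv.2 i ⟨σ, k, hk⟩) σ k hk

theorem not_good_dens (hA : ∀ i, (A i).IsMotive χ S) :
    Tendsto (dens fun v => ¬ GoodPlace A S v) atTop (𝓝 0) := by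
  classical
  have h1 := dens_biUnion (Finset.univ.filter fun i : ι =>
      ∃ (σ : (A i).E →+* AlgebraicClosure K) (k : ℕ), (A i).Vertex σ k)
    (fun i v => IsDeg1 S v ∧ ¬ SmallExcess (A i) v) (fun i hi => small_dens (hA i) (by
      rw [Finset.mem_filter] at hi
      exact hi.2))
  have h2 := dens_not_prime (K := K)
  have h3 := dens_finite _ (finite_norm_mem (K := K) S)
  have h4 := h1.add (h2.add h3)
  rw [add_zero, add_zero] at h4
  refine squeeze_zero (fun N => dens_nonneg _ _) (fun N => ?_) h4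
  refine le_trans (dens_mono (Q := fun v => _ ∨ (_ ∨ _)) ?_ N)
      (le_trans (dens_or _ _ N) (add_le_add_right (dens_or _ _ N) _))
  intro v hv
  by_cases hp : (Ideal.absNorm v.asIdeal).Prime
  · by_cases hS : Ideal.absNorm v.asIdeal ∈ S
    · exact Or.inr (Or.inr hS)
    · left
      by_contra hcon
      apply hv
      refine ⟨⟨hp, hS⟩, fun i hi => ?_⟩
      by_contra hs
      apply hcon
      exact ⟨i, by rw [Finset.mem_filter]; exact ⟨Finset.mem_univ _, hi⟩, ⟨hp, hS⟩, hs⟩
  · exact Or.inr (Or.inl hp)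

theorem good_ratio (hA : ∀ i, (A i).IsMotive χ S) :
    Tendsto (ratio fun v => GoodPlace A S v) atTop (𝓝 1) := by
  apply ratio_tendsto
  have h0 := not_good_dens χ hA
  have h1 := dens_true (K := K)
  have h2 := h1.sub h0
  rw [sub_zero] at h2
  refine tendsto_of_tendsto_of_tendsto_of_le_of_le h2 h1 (fun N => ?_) (fun N => dens_mono (fun _ _ => trivial) N)
  have h3 : dens (fun _ : HeightOneSpectrum (𝓞 K) => True) N ≤
      dens (fun v => GoodPlace A S v) N + dens (fun v => ¬ GoodPlace A S v) N := by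
    refine le_trans (dens_mono ?_ N) (dens_or _ _ N)
    intro v _
    exact em _
  linarith

/-- the good places with an admissible Frobenius element -/
def AdmPlace (A : ι → MotSystem K ℓ) (S : Finset ℕ) (v : HeightOneSpectrum (𝓞 K)) : Prop :=
  GoodPlace A S v ∧ ∃ γ : GK K, IsFrob v γ ∧ ∀ i, (A i).Admissible γ

theorem adm_lower (hA : ∀ i, (A i).IsMotive χ S) (ε : ℝ) (hε : 0 < ε) :
    ∀ᶠ N : ℕ in atTop, MotSystem.admProportion A - ε ≤ dens (AdmPlace A S) N := by
  have hlim := MotSystem.adm_dens A χ S hA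
  have h1 := not_good_dens χ hA
  have e0 := hlim.eventually (lt_mem_nhds (show MotSystem.admProportion A - ε / 2 <
    MotSystem.admProportion A by linarith))
  have e1 := h1.eventually (gt_mem_nhds (show (0:ℝ) < ε / 2 by positivity))
  filter_upwards [e0, e1] with N h0 h1
  have hle : dens (fun v : HeightOneSpectrum (𝓞 K) => ∃ γ : GK K, IsFrob v γ ∧
      ∀ i, (A i).Admissible γ) N ≤ dens (AdmPlace A S) N + dens (fun v => ¬ GoodPlace A S v) N := by
    refine le_trans (dens_mono ?_ N) (dens_or _ _ N)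
    intro v hv
    by_cases hg : GoodPlace A S v
    · exact Or.inl ⟨hg, hv⟩
    · exact Or.inr hg
  linarith

theorem adm_newton (hA : ∀ i, (A i).IsMotive χ S) {v : HeightOneSpectrum (𝓞 K)}
    (hv : AdmPlace A S v) (m : ι → ℕ) (G : ℤ[X])
    (hG : G.map (Int.castRingHom (AlgebraicClosure K)) = MotSystem.prodPoly A m v) :
    NewtonSlopes (Ideal.absNorm v.asIdeal) G (MotSystem.slopes A m) := by
  obtain ⟨hg, γ, hγ, hadm⟩ := hv
  exact good_newton χ hA hg hγ m (fun i _ => hadm i) G hG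

/-- if the identity is admissible, the density is one -/
theorem adm_ratio_one (hA : ∀ i, (A i).IsMotive χ S) (h1 : ∀ i, (A i).Admissible 1) :
    Tendsto (ratio (AdmPlace A S)) atTop (𝓝 1) := by
  have h := good_ratio χ hA
  refine h.congr ?_
  intro N
  congr 1
  funext v
  apply propext
  constructor
  · intro hv
    obtain ⟨γ, hγ⟩ := exists_isFrob v
    exact ⟨hv, γ, hγ, fun i => MotSystem.adm_of_one (h1 i) γ⟩
  · intro hv
    exact hv.1

end family

/-- if the defect at all vertices is at most two, the identity is admissible -/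
theorem adm_one_of_defect (A : MotSystem K ℓ)
    (h : ∀ (σ : A.E →+* AlgebraicClosure K) (k : ℕ), A.Vertex σ k → A.defect k ≤ 2) :
    A.Admissible 1 := by
  intro σ₀ k hk
  refine (h σ₀ k hk).trans ?_
  have hmem : σ₀ ∈ A.orb 1 σ₀ k := ⟨0, Or.inl (by rw [pow_zero, MultSystem.mv_one])⟩
  have : 0 < (A.orb 1 σ₀ k).ncard := by
    rw [Set.ncard_pos (Set.toFinite _)]
    exact ⟨_, hmem⟩
  have h2 : (1 : ℤ) ≤ ((A.orb 1 σ₀ k).ncard : ℤ) := by exact_mod_cast this
  linarith

end

end Pool.Agent.V1143.Ord
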