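import Pool.Agent.V1143.Ord.Dens

/-! Realisations over the subfield `K₀`: ordinary places for all primes `ℓ'` and all embeddings. -/

set_option autoImplicit false
set_option linter.all false

namespace Pool.Agent.V1143.Ord

open NumberField IsDedekindDomain Polynomial Filter Topology
open Pool.Agent.W401.Cheb Pool.Agent.W528.Ord
open Pool.Agent.W528.Ord.MultSystem (mv IsDeg1 IsOver norm_mem)

/-- The realisations `R ℓ'` are strictly compatible: at the places of degree one outside `S` the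
characteristic polynomial of the geometric Frobenius element (the inverse of `γ`) is `F v`. -/
def StrictlyCompatible {K₀ : Type} [Field K₀] [NumberField K₀] (S : Finset ℕ) {r : ℕ}
    (R : ∀ (ℓ' : ℕ) [Fact ℓ'.Prime], GK K₀ →* Matrix.GeneralLinearGroup (Fin r) ℚ_[ℓ'])
    (F : HeightOneSpectrum (𝓞 K₀) → Polynomial ℤ) : Prop :=
  ∀ (ℓ' : ℕ) [Fact ℓ'.Prime] (v₀ : HeightOneSpectrum (𝓞 K₀)), IsDeg1 S v₀ →
    Ideal.absNorm v₀.asIdeal ≠ ℓ' → ∀ γ : GK K₀, IsFrob v₀ γ →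
      (R ℓ' γ⁻¹ : Matrix (Fin r) (Fin r) ℚ_[ℓ']).charpoly = (F v₀).map (Int.castRingHom ℚ_[ℓ'])

/-- For every prime `ℓ'` different from the residue characteristic `p = N v₀` and every embedding `τ`
of the field of algebraic numbers the Newton polygon of `R ℓ'` at `v₀` has the slopes `H`. -/
def Ordinary {K₀ : Type} [Field K₀] [NumberField K₀] {r : ℕ}
    (R : ∀ (ℓ' : ℕ) [Fact ℓ'.Prime], GK K₀ →* Matrix.GeneralLinearGroup (Fin r) ℚ_[ℓ'])
    (H : Multiset ℕ) (v₀ : HeightOneSpectrum (𝓞 K₀)) : Prop :=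
  ∃ (p : ℕ) (_ : Fact p.Prime), Ideal.absNorm v₀.asIdeal = p ∧
    ∀ (ℓ' : ℕ) [Fact ℓ'.Prime], p ≠ ℓ' → ∀ γ : GK K₀, IsFrob v₀ γ →
      ∀ τ : algebraicClosure ℚ (PadicAlgCl ℓ') →+* PadicAlgCl p,
        NewtonTau (R ℓ' γ⁻¹ : Matrix (Fin r) (Fin r) ℚ_[ℓ']) τ H

/-- The polynomials `F v₀` are, at the places `v` of `K` of degree one outside `S`, the products of the
Frobenius polynomials of the pieces `A i`, with the multiplicities `m i`. -/
def Decomposes {K₀ K : Type} [Field K₀] [NumberField K₀] [Field K] [NumberField K] [Algebra K₀ K]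
    {ℓ : ℕ} [Fact ℓ.Prime] {ι : Type} [Fintype ι] (A : ι → MotSystem K ℓ) (m : ι → ℕ) (S : Finset ℕ)
    (F : HeightOneSpectrum (𝓞 K₀) → Polynomial ℤ) : Prop :=
  ∀ (v₀ : HeightOneSpectrum (𝓞 K₀)) (v : HeightOneSpectrum (𝓞 K)),
    v.asIdeal.comap (algebraMap (𝓞 K₀) (𝓞 K)) = v₀.asIdeal → IsDeg1 S v →
      (F v₀).map (Int.castRingHom (AlgebraicClosure K)) = MotSystem.prodPoly A m v

variable {K₀ K : Type} [Field K₀] [NumberField K₀] [Field K] [NumberField K] [Algebra K₀ K]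
  {ℓ : ℕ} [Fact ℓ.Prime] {ι : Type} [Fintype ι] {A : ι → MotSystem K ℓ}
  (χ : GK K →* (PadicAlgCl ℓ)ˣ) {S : Finset ℕ} (hA : ∀ i, (A i).IsMotive χ S)

theorem deg1_under {v : HeightOneSpectrum (𝓞 K)} (hv : IsDeg1 S v) {v₀ : HeightOneSpectrum (𝓞 K₀)}
    (h : v.asIdeal.comap (algebraMap (𝓞 K₀) (𝓞 K)) = v₀.asIdeal) : IsDeg1 S v₀ := by
  unfold MultSystem.IsDeg1
  rw [under_norm v hv.1 v₀ h]
  exact hv

include hA in
theorem newton_under {v : HeightOneSpectrum (𝓞 K)} (hv : AdmPlace A S v)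
    {v₀ : HeightOneSpectrum (𝓞 K₀)} (h : v.asIdeal.comap (algebraMap (𝓞 K₀) (𝓞 K)) = v₀.asIdeal)
    (m : ι → ℕ) (F : HeightOneSpectrum (𝓞 K₀) → ℤ[X]) (hF : Decomposes A m S F) :
    NewtonSlopes (Ideal.absNorm v₀.asIdeal) (F v₀) (MotSystem.slopes A m) := by
  rw [under_norm v hv.1.1.1 v₀ h]
  exact adm_newton χ hA hv m (F v₀) (hF v₀ v h hv.1.1)

include hA in
theorem ordinary_under {v : HeightOneSpectrum (𝓞 K)} (hv : AdmPlace A S v)
    {v₀ : HeightOneSpectrum (𝓞 K₀)} (h : v.asIdeal.comap (algebraMap (𝓞 K₀) (𝓞 K)) = v₀.asIdeal)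
    (m : ι → ℕ) {r : ℕ} (R : ∀ (ℓ' : ℕ) [Fact ℓ'.Prime], GK K₀ →* Matrix.GeneralLinearGroup (Fin r) ℚ_[ℓ'])
    (F : HeightOneSpectrum (𝓞 K₀) → ℤ[X]) (hR : StrictlyCompatible S R F) (hF : Decomposes A m S F) :
    Ordinary R (MotSystem.slopes A m) v₀ := by
  have hN := newton_under χ hA hv h m F hF
  have hd := deg1_under hv.1.1 h
  haveI : Fact (Ideal.absNorm v₀.asIdeal).Prime := ⟨hd.1⟩
  refine ⟨Ideal.absNorm v₀.asIdeal, inferInstance, rfl, ?_⟩
  intro ℓ' _ hne γ hγ τ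
  exact newtonTau_of _ τ _ (F v₀) (hR ℓ' v₀ hd hne γ hγ) hN

include hA in
/-- lower density over `K` -/
theorem lower_up (P : HeightOneSpectrum (𝓞 K) → Prop) (h : ∀ v, AdmPlace A S v → P v) :
    MotSystem.admProportion A ≤ lowerDensity P := by
  refine le_trans (lowerDensity_ge (AdmPlace A S) _ (fun ε hε => adm_lower χ hA ε hε)) ?_
  exact lowerDensity_mono _ _ h

include hA in
/-- lower density over `K₀` -/
theorem lower_down (P : HeightOneSpectrum (𝓞 K₀) → Prop)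
    (h : ∀ (v : HeightOneSpectrum (𝓞 K)) (v₀ : HeightOneSpectrum (𝓞 K₀)), AdmPlace A S v →
      v.asIdeal.comap (algebraMap (𝓞 K₀) (𝓞 K)) = v₀.asIdeal → P v₀) :
    MotSystem.admProportion A / (Module.finrank K₀ K : ℝ) ≤ lowerDensity P :=
  lower_under (AdmPlace A S) P (fun v hv => hv.1.1.1) (fun v v₀ hv h0 => h v v₀ hv h0) _
    (fun ε hε => adm_lower χ hA ε hε)

theorem ratio_mono_one (P P' : HeightOneSpectrum (𝓞 K) → Prop) (h : ∀ v, P v → P' v)
    (h1 : Tendsto (ratio P) atTop (𝓝 1)) : Tendsto (ratio P') atTop (𝓝 1) := by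
  refine tendsto_of_tendsto_of_tendsto_of_le_of_le h1 tendsto_const_nhds (fun N => ?_)
    (fun N => ratio_le_one P' N)
  have hsub : {v : HeightOneSpectrum (𝓞 K) | Ideal.absNorm v.asIdeal ≤ N ∧ P v} ⊆
      {v : HeightOneSpectrum (𝓞 K) | Ideal.absNorm v.asIdeal ≤ N ∧ P' v} := fun v hv => ⟨hv.1, h v hv.2⟩
  have h2 : Nat.card {v : HeightOneSpectrum (𝓞 K) // Ideal.absNorm v.asIdeal ≤ N ∧ P v} ≤
      Nat.card {v : HeightOneSpectrum (𝓞 K) // Ideal.absNorm v.asIdeal ≤ N ∧ P' v} :=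
    Set.ncard_le_ncard hsub
    ((Pool.Agent.W352.ChAbs.finite_le (K := K) N).subset (fun v hv => hv.1))
  have h3 : (Nat.card {v : HeightOneSpectrum (𝓞 K) // Ideal.absNorm v.asIdeal ≤ N ∧ P v} : ℝ) ≤
      (Nat.card {v : HeightOneSpectrum (𝓞 K) // Ideal.absNorm v.asIdeal ≤ N ∧ P' v} : ℝ) :=
    Nat.cast_le.mpr h2
  exact div_le_div_of_nonneg_right h3 (Nat.cast_nonneg _)

include hA in
theorem ratio_up (hdef : ∀ i (σ : (A i).E →+* AlgebraicClosure K) (k : ℕ), (A i).Vertex σ k →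
      (A i).defect k ≤ 2) (P : HeightOneSpectrum (𝓞 K) → Prop) (h : ∀ v, AdmPlace A S v → P v) :
    Tendsto (ratio P) atTop (𝓝 1) :=
  ratio_mono_one _ _ h (adm_ratio_one χ hA (fun i => adm_one_of_defect (A i) (hdef i)))

theorem prop_one (hdef : ∀ i (σ : (A i).E →+* AlgebraicClosure K) (k : ℕ), (A i).Vertex σ k →
      (A i).defect k ≤ 2) : MotSystem.admProportion A = 1 :=
  MotSystem.admProportion_one A (fun i => adm_one_of_defect (A i) (hdef i))

end Pool.Agent.V1143.Ord
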